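import Pool.Agent.H139R2.HI2

set_option autoImplicit false

/-!
The main block estimate for the recursion in Heath-Brown's large sieve.
-/

namespace Pool.Agent.H139R2.HI

open Finset Filter Topology MeasureTheory Pool.Agent.H306R2.RZ

noncomputable section

/-! ### the statements used -/

def SHR : Prop := ∀ (M N : ℕ) (B : ℝ) (_ : 0 ≤ B) (_ : LSB M N B),
    (∀ b : ℕ → ℂ, ∑ n ∈ osf N, ‖∑ m ∈ sqf M, b m * (js m n : ℂ)‖ ^ 2 ≤
      B * ∑ m ∈ sqf M, ‖b m‖ ^ 2) ∧ LSB N M (64 * B)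

def SHE : Prop := LSP 2

def SHP : Prop := ∀ (M : ℝ) (_ : 0 < M) (g q : ℕ) (_ : Odd g) (_ : Squarefree g) (_ : Odd q)
    (_ : Squarefree q) (_ : g.Coprime q) (_ : q % 4 = 1) (_ : 1 < q),
    Summable (fun k : ℤ => if Squarefree k.natAbs then |ThK M k g q| else 0) ∧
    (∑' m : ℤ, if Int.gcd m g = 1 then Real.exp (-(Real.pi * ((m : ℝ) / M) ^ 2)) * js m q else 0) =
      ∑' k : ℤ, if Squarefree k.natAbs then js k q * ThK M k g q else 0

def SHI0 : Prop := ∀ (ε D : ℝ) (_ : 0 < ε), ∃ C : ℝ, 0 < C ∧ ∀ M N : ℕ, 2 ≤ N → N ≤ M →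
    M ≤ N ^ 2 → ∀ g q : ℕ, 1 ≤ g → 1 ≤ q → g ^ 2 * q ≤ N ^ 2 →
      (∑' k : ℤ, if Squarefree k.natAbs ∧ (N : ℝ) ^ 2 * ((M : ℝ) * N) ^ ε / M < k.natAbs then
        |ThK M k g q| else 0) ≤ C * ((M : ℝ) * N) ^ (-D)

def SHIk : Prop := ∀ (β : ℝ) (_ : 1 < β) (_ : β ≤ 2) (_ : LSP β) (ε : ℝ) (_ : 0 < ε),
    ∃ ε0 : ℝ, 0 < ε0 ∧ ∀ ε' : ℝ, 0 < ε' → ε' ≤ ε0 → ∃ C : ℝ, 0 < C ∧ ∀ M N : ℕ, 2 ≤ N →
      (N : ℝ) ^ (2 - 1 / β) ≤ M → M ≤ N ^ 2 → ∀ (ρ : ℕ) (a : ℕ → ℂ),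
      (∀ n, a n ≠ 0 → N < 2 * n ∧ n ≤ N ∧ n % 4 = ρ) →
      ‖∑ k ∈ (Icc (-(⌊(N : ℝ) ^ 2 * ((M : ℝ) * N) ^ ε' / M⌋₊ : ℤ))
          (⌊(N : ℝ) ^ 2 * ((M : ℝ) * N) ^ ε' / M⌋₊ : ℤ)).filter (fun k => Squarefree k.natAbs),
        ∑ n1 ∈ osf N, ∑ n2 ∈ osf N, if n1 = n2 then 0 else
          a n1 * (starRingEnd ℂ) (a n2) *
            ((js k (n1 * n2 / Nat.gcd n1 n2 ^ 2) *
                ThK M k (Nat.gcd n1 n2) (n1 * n2 / Nat.gcd n1 n2 ^ 2) -
              js k (n1 * n2) * Phr (n1 * n2) (Real.sqrt (M / k.natAbs)) : ℝ) : ℂ)‖ ≤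
        C * ((M : ℝ) * N) ^ ε * M * ∑ n ∈ osf N, ‖a n‖ ^ 2

/-- weighted complete sum -/
def WS (M : ℝ) (n : ℕ) : ℝ := ∑' m : ℤ, w M m * js m n

theorem W_split (hHP : SHP) (M : ℝ) (hM : 0 < M) (K g q : ℕ) (og : Odd g) (sg : Squarefree g)
    (oq : Odd q) (sq : Squarefree q) (hgq : g.Coprime q) (h4 : q % 4 = 1) (hq1 : 1 < q) (R0 : ℝ)
    (hR : (∑' k : ℤ, if Squarefree k.natAbs ∧ K < k.natAbs then |ThK M k g q| else 0) ≤ R0) :
    |WS M (g ^ 2 * q) - ∑ k ∈ Tset K, js k q * ThK M k g q| ≤ R0 := by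
  classical
  obtain ⟨hs, he⟩ := hHP M hM g q og sg oq sq hgq h4 hq1
  have e1 : WS M (g ^ 2 * q) =
      ∑' k : ℤ, if Squarefree k.natAbs then js k q * ThK M k g q else 0 := by
    rw [← he]
    unfold WS
    apply tsum_congr
    intro m
    rw [js_gq m g q og.pos.ne' (by omega)]
    unfold w
    split_ifs <;> simp
  set f : ℤ → ℝ := fun k => if Squarefree k.natAbs then js k q * ThK M k g q else 0 with hf
  have hfb : ∀ k, ‖f k‖ ≤ (if Squarefree k.natAbs then |ThK M k g q| else 0) := by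
    intro k
    simp only [hf]
    split_ifs
    · rw [Real.norm_eq_abs, abs_mul]
      exact mul_le_of_le_one_left (abs_nonneg _) (js_abs_le _ _)
    · simp
  have hfs : Summable f := Summable.of_norm_bounded hs hfb
  have hs2 : Summable (fun k : ℤ => if Squarefree k.natAbs ∧ K < k.natAbs then
      |ThK M k g q| else 0) := by
    apply Summable.of_nonneg_of_le (fun k => ?_) (fun k => ?_) hs
    · split_ifs
      · exact abs_nonneg _
      · exact le_rfl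
    · by_cases h1 : Squarefree k.natAbs
      · by_cases h2 : K < k.natAbs
        · simp [h1, h2]
        · simp [h1, h2]
      · simp [h1]
  have e2 : ∑' k, f k = ∑ k ∈ Tset K, f k + ∑' k, (if k ∈ Tset K then 0 else f k) := by
    have h1 : ∑ k ∈ Tset K, f k = ∑' k, (if k ∈ Tset K then f k else 0) := by
      rw [tsum_eq_sum (s := Tset K)]
      · apply Finset.sum_congr rfl
        intro k hk
        rw [if_pos hk]
      · intro k hk
        rw [if_neg hk]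
    rw [h1, ← Summable.tsum_add]
    · apply tsum_congr
      intro k
      split_ifs <;> simp
    · apply Summable.of_norm_bounded hfs.norm
      intro k
      split_ifs
      · exact le_rfl
      · simp
    · apply Summable.of_norm_bounded hfs.norm
      intro k
      split_ifs
      · simp
      · exact le_rfl
  have e3 : ∑ k ∈ Tset K, f k = ∑ k ∈ Tset K, js k q * ThK M k g q := by
    apply Finset.sum_congr rfl
    intro k hk
    simp only [hf]
    rw [if_pos (mem_Tset.1 hk).2]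
  rw [e1, e2, e3, add_sub_cancel_left]
  have h5 : ‖∑' k, (if k ∈ Tset K then 0 else f k)‖ ≤
      ∑' k : ℤ, (if Squarefree k.natAbs ∧ K < k.natAbs then |ThK M k g q| else 0) := by
    apply tsum_of_norm_bounded hs2.hasSum
    intro k
    by_cases h1 : k ∈ Tset K
    · rw [if_pos h1, norm_zero]
      split_ifs
      · exact abs_nonneg _
      · exact le_rfl
    · rw [if_neg h1]
      refine (hfb k).trans ?_
      by_cases h2 : Squarefree k.natAbs
      · have h3 : K < k.natAbs := by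
          by_contra h3
          exact h1 (mem_Tset.2 ⟨by omega, h2⟩)
        rw [if_pos h2, if_pos ⟨h2, h3⟩]
      · simp [h2]
  rw [← Real.norm_eq_abs]
  exact h5.trans hR

theorem Phr_nonneg (r : ℕ) (Z : ℝ) : 0 ≤ Phr r Z := by
  unfold Phr
  apply tsum_nonneg
  intro b
  split_ifs
  · exact (Real.exp_pos _).le
  · exact le_rfl

/-- the identity behind the recursion -/
theorem core (hHP : SHP) (M N K : ℕ) (hM : 1 ≤ M) (ρ : ℕ) (a : ℕ → ℂ)
    (ha : ∀ n, a n ≠ 0 → n % 4 = ρ) (R0 T : ℝ) (hR0 : 0 ≤ R0)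
    (hR : ∀ g q : ℕ, 1 ≤ g → 1 ≤ q → g ^ 2 * q ≤ N ^ 2 →
      (∑' k : ℤ, if Squarefree k.natAbs ∧ K < k.natAbs then |ThK M k g q| else 0) ≤ R0)
    (hT : ‖∑ k ∈ Tset K,
        ∑ n1 ∈ osf N, ∑ n2 ∈ osf N, if n1 = n2 then 0 else
          a n1 * (starRingEnd ℂ) (a n2) *
            ((js k (n1 * n2 / Nat.gcd n1 n2 ^ 2) *
                ThK M k (Nat.gcd n1 n2) (n1 * n2 / Nat.gcd n1 n2 ^ 2) -
              js k (n1 * n2) * Phr (n1 * n2) (Real.sqrt (M / k.natAbs)) : ℝ) : ℂ)‖ ≤ T) :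
    Real.exp (-Real.pi) * ∑ m ∈ (sqf M).filter (fun m => K < m), ‖AA N a (m : ℤ)‖ ^ 2 ≤
      (∑' m : ℤ, w 1 m) * M * (∑ n ∈ osf N, ‖a n‖ ^ 2) + T +
        R0 * (∑ n ∈ osf N, ‖a n‖) ^ 2 := by
  classical
  have hMr : (1 : ℝ) ≤ M := by exact_mod_cast hM
  have hM0 : (0 : ℝ) < M := by linarith
  set F : ℤ → ℝ := fun m => w M m * ‖AA N a m‖ ^ 2 with hF
  have hFs : Summable F := F_summable M hM0 N a
  have hF0 : ∀ m, 0 ≤ F m := fun m => by
    have := w_pos M m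
    simp only [hF]
    positivity
  have hlow := lower M K F hF0 hFs
  have h1 : Real.exp (-Real.pi) * ∑ m ∈ (sqf M).filter (fun m => K < m), ‖AA N a (m : ℤ)‖ ^ 2 ≤
      ∑ m ∈ (sqf M).filter (fun m => K < m), F (m : ℤ) := by
    rw [Finset.mul_sum]
    apply Finset.sum_le_sum
    intro m hm
    rw [mem_filter, mem_sqf] at hm
    simp only [hF]
    apply mul_le_mul_of_nonneg_right _ (by positivity)
    unfold w
    apply Real.exp_le_exp.2
    have h2 : (m : ℝ) / M ≤ 1 := by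
      rw [div_le_one hM0]
      exact_mod_cast hm.1.1.2
    have h3 : (0 : ℝ) ≤ (m : ℝ) / M := by positivity
    have h4 : (((m : ℤ) : ℝ) / M) ^ 2 ≤ 1 := by
      push_cast
      nlinarith
    nlinarith [Real.pi_pos, mul_le_mul_of_nonneg_left h4 Real.pi_pos.le]
  set Sk : ℤ → ℝ := fun k => ∑' b : ℕ, (if b ≠ 0 then F (k * (b : ℤ) ^ 2) else 0) with hSk
  set V : ℕ → ℕ → ℝ := fun n1 n2 => ∑ k ∈ Tset K,
    js k (n1 * n2) * Phr (n1 * n2) (Real.sqrt (M / k.natAbs)) with hV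
  -- the difference
  have hD : (((∑' m, F m) - ∑ k ∈ Tset K, Sk k : ℝ) : ℂ) = ∑ n1 ∈ osf N, ∑ n2 ∈ osf N,
      a n1 * (starRingEnd ℂ) (a n2) * ((WS M (n1 * n2) - V n1 n2 : ℝ) : ℂ) := by
    have e1 := expand (w M) (w_summable M hM0) (fun m => (w_pos M m).le) (fun m => m) N a
    have e2 : ∀ k ∈ Tset K, ((Sk k : ℝ) : ℂ) = ∑ n1 ∈ osf N, ∑ n2 ∈ osf N,
        a n1 * (starRingEnd ℂ) (a n2) *
          ((js k (n1 * n2) * Phr (n1 * n2) (Real.sqrt (M / k.natAbs)) : ℝ) : ℂ) := by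
      intro k hk
      exact Sk_expand M hM0 k (mem_Tset.1 hk).2 N a
    have e3 : ((∑ k ∈ Tset K, Sk k : ℝ) : ℂ) = ∑ n1 ∈ osf N, ∑ n2 ∈ osf N,
        a n1 * (starRingEnd ℂ) (a n2) * ((V n1 n2 : ℝ) : ℂ) := by
      rw [Complex.ofReal_sum, Finset.sum_congr rfl e2, Finset.sum_comm]
      apply Finset.sum_congr rfl
      intro n1 _
      rw [Finset.sum_comm]
      apply Finset.sum_congr rfl
      intro n2 _
      rw [← Finset.mul_sum]
      simp only [hV]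
      rw [Complex.ofReal_sum]
    rw [Complex.ofReal_sub, e3]
    have e4 : ((∑' m, F m : ℝ) : ℂ) = ∑ n1 ∈ osf N, ∑ n2 ∈ osf N,
        a n1 * (starRingEnd ℂ) (a n2) * ((WS M (n1 * n2) : ℝ) : ℂ) := e1
    rw [e4, ← Finset.sum_sub_distrib]
    apply Finset.sum_congr rfl
    intro n1 _
    rw [← Finset.sum_sub_distrib]
    apply Finset.sum_congr rfl
    intro n2 _
    push_cast
    ring
  set D : ℝ := (∑' m, F m) - ∑ k ∈ Tset K, Sk k with hDdef
  -- diagonal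
  set D1 : ℝ := ∑ n ∈ osf N, ‖a n‖ ^ 2 * (WS M (n * n) - V n n) with hD1
  have hD1le : D1 ≤ (∑' m : ℤ, w 1 m) * M * (∑ n ∈ osf N, ‖a n‖ ^ 2) := by
    rw [hD1, Finset.mul_sum]
    apply Finset.sum_le_sum
    intro n hn
    rw [mem_osf] at hn
    rw [mul_comm]
    apply mul_le_mul_of_nonneg_right _ (by positivity)
    have hn0 : n ≠ 0 := by omega
    have h2 : 0 ≤ V n n := by
      simp only [hV]
      apply Finset.sum_nonneg
      intro k _
      rw [js_mul_right k n n hn0 hn0]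
      have := Phr_nonneg (n * n) (Real.sqrt (M / k.natAbs))
      have h3 := mul_self_nonneg (js k n)
      positivity
    have h3 : WS M (n * n) ≤ ∑' m, w M m := by
      unfold WS
      apply Summable.tsum_le_tsum _ _ (w_summable M hM0)
      · intro m
        have h4 := (abs_le.1 (js_abs_le m (n * n))).2
        exact mul_le_of_le_one_right (w_pos M m).le h4
      · apply Summable.of_norm_bounded (w_summable M hM0)
        intro m
        rw [norm_mul, Real.norm_eq_abs, Real.norm_eq_abs, abs_of_pos (w_pos M m)]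
        exact mul_le_of_le_one_right (w_pos M m).le (js_abs_le _ _)
    linarith [w_sum_le M hMr]
  -- off diagonal
  set E : ℂ := ∑ k ∈ Tset K,
        ∑ n1 ∈ osf N, ∑ n2 ∈ osf N, if n1 = n2 then 0 else
          a n1 * (starRingEnd ℂ) (a n2) *
            ((js k (n1 * n2 / Nat.gcd n1 n2 ^ 2) *
                ThK M k (Nat.gcd n1 n2) (n1 * n2 / Nat.gcd n1 n2 ^ 2) -
              js k (n1 * n2) * Phr (n1 * n2) (Real.sqrt (M / k.natAbs)) : ℝ) : ℂ) with hE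
  set U : ℕ → ℕ → ℝ := fun n1 n2 => WS M (n1 * n2) - ∑ k ∈ Tset K,
    js k (n1 * n2 / Nat.gcd n1 n2 ^ 2) * ThK M k (Nat.gcd n1 n2) (n1 * n2 / Nat.gcd n1 n2 ^ 2)
    with hU
  have hE2 : E = ∑ n1 ∈ osf N, ∑ n2 ∈ osf N, if n1 = n2 then 0 else
      a n1 * (starRingEnd ℂ) (a n2) * ((WS M (n1 * n2) - V n1 n2 - U n1 n2 : ℝ) : ℂ) := by
    rw [hE, Finset.sum_comm]
    apply Finset.sum_congr rfl
    intro n1 _
    rw [Finset.sum_comm]
    apply Finset.sum_congr rfl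
    intro n2 _
    split_ifs with h
    · simp
    · rw [← Finset.mul_sum]
      congr 1
      rw [← Complex.ofReal_sum]
      congr 1
      simp only [hU, hV]
      rw [Finset.sum_sub_distrib]
      ring
  have hsplit : ((D - D1 : ℝ) : ℂ) = E + ∑ n1 ∈ osf N, ∑ n2 ∈ osf N, if n1 = n2 then 0 else
      a n1 * (starRingEnd ℂ) (a n2) * ((U n1 n2 : ℝ) : ℂ) := by
    have e1 : ((D1 : ℝ) : ℂ) = ∑ n1 ∈ osf N, ∑ n2 ∈ osf N, if n1 = n2 then
        a n1 * (starRingEnd ℂ) (a n2) * ((WS M (n1 * n2) - V n1 n2 : ℝ) : ℂ) else 0 := by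
      rw [hD1, Complex.ofReal_sum]
      apply Finset.sum_congr rfl
      intro n hn
      rw [Finset.sum_ite_eq, if_pos hn, Complex.mul_conj']
      push_cast
      ring
    rw [Complex.ofReal_sub, hD, e1, hE2, ← Finset.sum_sub_distrib, ← Finset.sum_add_distrib]
    apply Finset.sum_congr rfl
    intro n1 _
    rw [← Finset.sum_sub_distrib, ← Finset.sum_add_distrib]
    apply Finset.sum_congr rfl
    intro n2 _
    split_ifs with h
    · simp
    · push_cast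
      ring
  have hUb : ‖∑ n1 ∈ osf N, ∑ n2 ∈ osf N, (if n1 = n2 then 0 else
      a n1 * (starRingEnd ℂ) (a n2) * ((U n1 n2 : ℝ) : ℂ))‖ ≤ R0 * (∑ n ∈ osf N, ‖a n‖) ^ 2 := by
    have e0 : R0 * (∑ n ∈ osf N, ‖a n‖) ^ 2 =
        ∑ n1 ∈ osf N, ∑ n2 ∈ osf N, R0 * (‖a n1‖ * ‖a n2‖) := by
      rw [pow_two, Finset.sum_mul_sum, Finset.mul_sum]
      apply Finset.sum_congr rfl
      intro n1 _
      rw [Finset.mul_sum]
    rw [e0]
    refine (norm_sum_le _ _).trans (Finset.sum_le_sum fun n1 hn1 => ?_)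
    refine (norm_sum_le _ _).trans (Finset.sum_le_sum fun n2 hn2 => ?_)
    have hnn : 0 ≤ R0 * (‖a n1‖ * ‖a n2‖) := by positivity
    split_ifs with h
    · simpa using hnn
    · by_cases ha1 : a n1 = 0
      · simp [ha1]
      by_cases ha2 : a n2 = 0
      · simp [ha2]
      rw [mem_osf] at hn1 hn2
      have h4 : n1 % 4 = n2 % 4 := by rw [ha n1 ha1, ha n2 ha2]
      obtain ⟨b1, b2, b3, b4, b5, b6, b7, b8⟩ :=
        nt n1 n2 hn1.2.1 hn2.2.1 hn1.2.2 hn2.2.2 h h4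
      have hle : Nat.gcd n1 n2 ^ 2 * (n1 * n2 / Nat.gcd n1 n2 ^ 2) ≤ N ^ 2 := by
        rw [b8, pow_two]
        exact Nat.mul_le_mul hn1.1.2 hn2.1.2
      have hU1 := W_split hHP M hM0 K _ _ b1 b2 b3 b4 b5 b6 b7 R0
        (hR _ _ b1.pos b7.le hle)
      rw [b8] at hU1
      rw [norm_mul, norm_mul, RCLike.norm_conj, Complex.norm_real, Real.norm_eq_abs, mul_comm R0]
      apply mul_le_mul_of_nonneg_left hU1 (by positivity)
  have hfin : D - D1 ≤ T + R0 * (∑ n ∈ osf N, ‖a n‖) ^ 2 := by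
    have h2 : ‖((D - D1 : ℝ) : ℂ)‖ ≤ T + R0 * (∑ n ∈ osf N, ‖a n‖) ^ 2 := by
      rw [hsplit]
      exact (norm_add_le _ _).trans (add_le_add hT hUb)
    rw [Complex.norm_real, Real.norm_eq_abs] at h2
    exact (le_abs_self _).trans h2
  have h6 : ∑ m ∈ (sqf M).filter (fun m => K < m), F (m : ℤ) ≤ D := by
    rw [hDdef]
    linarith [hlow]
  linarith

end

end Pool.Agent.H139R2.HI
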