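import Pool.Agent.H139R2.HI3

set_option autoImplicit false

/-!
The block estimate for the recursion in Heath-Brown's large sieve.
-/

namespace Pool.Agent.H139R2.HI

open Finset Filter Topology MeasureTheory Pool.Agent.H306R2.RZ

noncomputable section

theorem expo (β ε ε' C1 M N K : ℝ) (hβ1 : 1 < β) (hβ2 : β ≤ 2) (hε : 0 < ε) (_hε0 : 0 < ε')
    (hε1 : ε' ≤ 1)
    (hε2 : ε' ≤ ε / 4) (hC1 : 0 < C1) (hN : 2 ≤ N) (hM : N ^ (2 - 1 / β) ≤ M) (hNM : N ≤ M)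
    (hK0 : 0 ≤ K) (hK : K ≤ N ^ 2 * (M * N) ^ ε' / M) :
    64 * (C1 * (N * K) ^ (ε / 4) * (N + K ^ β)) ≤ 128 * C1 * (M * N) ^ ε * M := by
  have hM0 : 0 < M := by linarith
  have hN0 : 0 < N := by linarith
  set X := M * N with hX
  have hX1 : 1 ≤ X := by nlinarith
  have hX0 : 0 < X := by linarith
  have hβ0 : 0 < β := by linarith
  -- (a)
  have a1 : X ^ ε' ≤ X := by
    calc X ^ ε' ≤ X ^ (1 : ℝ) := Real.rpow_le_rpow_of_exponent_le hX1 hε1
      _ = X := Real.rpow_one X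
  have a2 : N * K ≤ X ^ 2 := by
    have h1 : N * K ≤ N * (N ^ 2 * X ^ ε' / M) := mul_le_mul_of_nonneg_left hK hN0.le
    have h2 : N * (N ^ 2 * X ^ ε' / M) = N ^ 2 * X ^ ε' * (N / M) := by ring
    have h3 : N / M ≤ 1 := by rw [div_le_one hM0]; exact hNM
    have h4 : N ^ 2 * X ^ ε' * (N / M) ≤ N ^ 2 * X ^ ε' :=
      mul_le_of_le_one_right (by positivity) h3
    have h5 : N ^ 2 ≤ X := by rw [hX]; nlinarith
    have h6 : N ^ 2 * X ^ ε' ≤ X * X := mul_le_mul h5 a1 (by positivity) hX0.le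
    calc N * K ≤ N ^ 2 * X ^ ε' := by linarith
      _ ≤ X * X := h6
      _ = X ^ 2 := by ring
  have a3 : (N * K) ^ (ε / 4) ≤ X ^ (ε / 2) := by
    calc (N * K) ^ (ε / 4) ≤ (X ^ 2) ^ (ε / 4) :=
          Real.rpow_le_rpow (by positivity) a2 (by positivity)
      _ = X ^ (ε / 2) := by
          rw [← Real.rpow_natCast X 2, ← Real.rpow_mul hX0.le]
          congr 1
          push_cast
          ring
  -- (b)
  have b1 : K ^ β ≤ N * X ^ (ε / 2) := by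
    have h1 : K ^ β ≤ (N ^ 2 * X ^ ε' / M) ^ β := Real.rpow_le_rpow hK0 hK hβ0.le
    have h2 : (N ^ 2 * X ^ ε' / M) ^ β = N ^ (2 * β) * X ^ (ε' * β) / M ^ β := by
      rw [Real.div_rpow (by positivity) hM0.le, Real.mul_rpow (by positivity) (by positivity),
        ← Real.rpow_mul hX0.le, ← Real.rpow_natCast N 2, ← Real.rpow_mul hN0.le]
      push_cast
      rfl
    have h3 : N ^ (2 * β - 1) ≤ M ^ β := by
      have : (N ^ (2 - 1 / β)) ^ β ≤ M ^ β :=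
        Real.rpow_le_rpow (by positivity) hM hβ0.le
      rw [← Real.rpow_mul hN0.le] at this
      have e : (2 - 1 / β) * β = 2 * β - 1 := by field_simp
      rwa [e] at this
    have h4 : N ^ (2 * β) * X ^ (ε' * β) / M ^ β ≤ N ^ (2 * β) * X ^ (ε' * β) / N ^ (2 * β - 1) :=
      div_le_div_of_nonneg_left (by positivity) (by positivity) h3
    have h5 : N ^ (2 * β) * X ^ (ε' * β) / N ^ (2 * β - 1) = N * X ^ (ε' * β) := by
      have : N ^ (2 * β) = N ^ (2 * β - 1) * N := by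
        rw [← Real.rpow_add_one hN0.ne']
        congr 1
        ring
      rw [this]
      have hp : N ^ (2 * β - 1) ≠ 0 := (by positivity : (0 : ℝ) < N ^ (2 * β - 1)).ne'
      field_simp
    have h6 : X ^ (ε' * β) ≤ X ^ (ε / 2) := by
      apply Real.rpow_le_rpow_of_exponent_le hX1
      nlinarith
    calc K ^ β ≤ N * X ^ (ε' * β) := by rw [← h5]; linarith
      _ ≤ N * X ^ (ε / 2) := mul_le_mul_of_nonneg_left h6 hN0.le
  have c1 : 1 ≤ X ^ (ε / 2) := Real.one_le_rpow hX1 (by positivity)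
  have c2 : N + K ^ β ≤ 2 * M * X ^ (ε / 2) := by
    have h1 : N * X ^ (ε / 2) ≤ M * X ^ (ε / 2) := mul_le_mul_of_nonneg_right hNM (by positivity)
    have h2 : N ≤ M * X ^ (ε / 2) := by
      calc N ≤ M := hNM
        _ ≤ M * X ^ (ε / 2) := le_mul_of_one_le_right hM0.le c1
    linarith
  have c3 : X ^ ε = X ^ (ε / 2) * X ^ (ε / 2) := by
    rw [← Real.rpow_add hX0]
    congr 1
    ring
  have hKβ : 0 ≤ K ^ β := by positivity
  have c4 : (N * K) ^ (ε / 4) * (N + K ^ β) ≤ X ^ (ε / 2) * (2 * M * X ^ (ε / 2)) :=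
    mul_le_mul a3 c2 (by positivity) (by positivity)
  have c5 := mul_le_mul_of_nonneg_left c4 hC1.le
  calc 64 * (C1 * (N * K) ^ (ε / 4) * (N + K ^ β))
      = 64 * (C1 * ((N * K) ^ (ε / 4) * (N + K ^ β))) := by ring
    _ ≤ 64 * (C1 * (X ^ (ε / 2) * (2 * M * X ^ (ε / 2)))) := by linarith
    _ = 128 * C1 * (X ^ (ε / 2) * X ^ (ε / 2)) * M := by ring
    _ = _ := by rw [← c3]

theorem block (hHP : SHP) (hHR : SHR) (hHI0 : SHI0) (hHIk : SHIk) (β : ℝ) (h1 : 1 < β)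
    (h2 : β ≤ 2) (h : LSP β) (ε : ℝ) (hε : 0 < ε) :
    ∃ C : ℝ, 0 < C ∧ ∀ M N : ℕ, 2 ≤ N → (N : ℝ) ^ (2 - 1 / β) ≤ M → M ≤ N ^ 2 →
      ∀ (ρ : ℕ) (a : ℕ → ℂ), (∀ n, a n ≠ 0 → N < 2 * n ∧ n ≤ N ∧ n % 4 = ρ) →
      ∑ m ∈ sqf M, ‖AA N a (m : ℤ)‖ ^ 2 ≤
        C * ((M : ℝ) * N) ^ ε * M * ∑ n ∈ osf N, ‖a n‖ ^ 2 := by
  obtain ⟨C1, hC1, hb⟩ := h (ε / 4) (by positivity)
  obtain ⟨ε0, hε0, hk⟩ := hHIk β h1 h2 h ε hε
  set ε' := min ε0 (min 1 (ε / 4)) with hε'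
  have e1 : 0 < ε' := by rw [hε']; exact lt_min hε0 (lt_min one_pos (by positivity))
  have e2 : ε' ≤ ε0 := min_le_left _ _
  have e3 : ε' ≤ 1 := (min_le_right _ _).trans (min_le_left _ _)
  have e4 : ε' ≤ ε / 4 := (min_le_right _ _).trans (min_le_right _ _)
  obtain ⟨C2, hC2, hk2⟩ := hk ε' e1 e2
  obtain ⟨C3, hC3, hi0⟩ := hHI0 ε' 1 e1
  set C0 : ℝ := ∑' m : ℤ, w 1 m with hC0
  have hC0n : 0 ≤ C0 := tsum_nonneg fun m => (w_pos 1 m).le
  refine ⟨128 * C1 + Real.exp Real.pi * (C0 + C2 + C3), by positivity, ?_⟩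
  intro M N hN hNM hMN ρ a ha
  have hNr : (2 : ℝ) ≤ N := by exact_mod_cast hN
  have hγ : (1 : ℝ) ≤ 2 - 1 / β := by
    have : 1 / β ≤ 1 := by rw [div_le_one (by linarith)]; exact h1.le
    linarith
  have hNMr : (N : ℝ) ≤ M := by
    calc (N : ℝ) = (N : ℝ) ^ (1 : ℝ) := (Real.rpow_one _).symm
      _ ≤ (N : ℝ) ^ (2 - 1 / β) := Real.rpow_le_rpow_of_exponent_le (by linarith) hγ
      _ ≤ M := hNM
  have hNMn : N ≤ M := by exact_mod_cast hNMr
  have hM0 : (0 : ℝ) < M := by linarith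
  have hN0 : (0 : ℝ) < N := by linarith
  set X : ℝ := (M : ℝ) * N with hX
  have hX1 : 1 ≤ X := by rw [hX]; nlinarith
  have hX0 : 0 < X := by linarith
  set H : ℝ := (N : ℝ) ^ 2 * X ^ ε' / M with hH
  have hH0 : 0 ≤ H := by positivity
  set K : ℕ := ⌊H⌋₊ with hK
  set S : ℝ := ∑ n ∈ osf N, ‖a n‖ ^ 2 with hS
  have hS0 : 0 ≤ S := Finset.sum_nonneg fun n _ => by positivity
  have hXε : 1 ≤ X ^ ε := Real.one_le_rpow hX1 hε.le
  -- large m
  have hR : ∀ g q : ℕ, 1 ≤ g → 1 ≤ q → g ^ 2 * q ≤ N ^ 2 →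
      (∑' k : ℤ, if Squarefree k.natAbs ∧ K < k.natAbs then |ThK M k g q| else 0) ≤
        C3 * X ^ (-(1 : ℝ)) := by
    intro g q hg hq hgq
    have := hi0 M N hN hNMn hMN g q hg hq hgq
    refine le_trans (le_of_eq ?_) this
    apply tsum_congr
    intro k
    have hiff : (K < k.natAbs) ↔ ((N : ℝ) ^ 2 * ((M : ℝ) * N) ^ ε' / M < (k.natAbs : ℝ)) := by
      rw [hK]
      exact Nat.floor_lt hH0
    by_cases hc : Squarefree k.natAbs
    · by_cases hd : K < k.natAbs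
      · rw [if_pos ⟨hc, hd⟩, if_pos ⟨hc, hiff.1 hd⟩]
      · rw [if_neg (fun hh => hd hh.2), if_neg (fun hh => hd (hiff.2 hh.2))]
    · rw [if_neg (fun hh => hc hh.1), if_neg (fun hh => hc hh.1)]
  have hT := hk2 M N hN hNM hMN ρ a ha
  have hcore := core hHP M N K (by omega) ρ a (fun n hn => (ha n hn).2.2) (C3 * X ^ (-(1 : ℝ)))
    (C2 * X ^ ε * M * S) (by positivity) hR hT
  -- (Σ|a|)² ≤ N Σ|a|²
  have hcs : (∑ n ∈ osf N, ‖a n‖) ^ 2 ≤ N * S := by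
    have h3 : (∑ n ∈ osf N, ‖a n‖) ^ 2 ≤ ((osf N).card : ℝ) * S := sq_sum_le_card_mul_sum_sq
    have h4 : ((osf N).card : ℝ) ≤ N := by
      have : (osf N).card ≤ (Icc 1 N).card := Finset.card_filter_le _ _
      rw [Nat.card_Icc] at this
      exact_mod_cast (by omega : (osf N).card ≤ N)
    exact h3.trans (mul_le_mul_of_nonneg_right h4 hS0)
  have hX' : X ^ (-(1 : ℝ)) * N ≤ 1 := by
    rw [Real.rpow_neg_one, hX]
    rw [inv_mul_le_iff₀ (by positivity)]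
    nlinarith
  have hr0 : C3 * X ^ (-(1 : ℝ)) * (∑ n ∈ osf N, ‖a n‖) ^ 2 ≤ C3 * X ^ ε * M * S := by
    calc C3 * X ^ (-(1 : ℝ)) * (∑ n ∈ osf N, ‖a n‖) ^ 2
        ≤ C3 * X ^ (-(1 : ℝ)) * (N * S) := mul_le_mul_of_nonneg_left hcs (by positivity)
      _ = C3 * S * (X ^ (-(1 : ℝ)) * N) := by ring
      _ ≤ C3 * S * 1 := mul_le_mul_of_nonneg_left hX' (by positivity)
      _ ≤ C3 * S * (X ^ ε * M) := by
          apply mul_le_mul_of_nonneg_left _ (by positivity)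
          have : (1 : ℝ) ≤ M := by linarith
          nlinarith
      _ = _ := by ring
  have hd0 : C0 * M * S ≤ C0 * X ^ ε * M * S := by
    have : C0 * M * S * 1 ≤ C0 * M * S * X ^ ε := mul_le_mul_of_nonneg_left hXε (by positivity)
    linarith
  have hlarge : ∑ m ∈ (sqf M).filter (fun m => K < m), ‖AA N a (m : ℤ)‖ ^ 2 ≤
      Real.exp Real.pi * (C0 + C2 + C3) * X ^ ε * M * S := by
    have h5 : Real.exp (-Real.pi) * ∑ m ∈ (sqf M).filter (fun m => K < m), ‖AA N a (m : ℤ)‖ ^ 2 ≤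
        (C0 + C2 + C3) * X ^ ε * M * S := by
      refine hcore.trans ?_
      linarith
    have h6 := mul_le_mul_of_nonneg_left h5 (Real.exp_pos Real.pi).le
    rw [← mul_assoc, ← Real.exp_add, add_neg_cancel, Real.exp_zero, one_mul] at h6
    linarith
  -- small m
  have hsmall : ∑ m ∈ (sqf M).filter (fun m => ¬ K < m), ‖AA N a (m : ℤ)‖ ^ 2 ≤
      128 * C1 * X ^ ε * M * S := by
    have h7 : ∑ m ∈ (sqf M).filter (fun m => ¬ K < m), ‖AA N a (m : ℤ)‖ ^ 2 ≤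
        ∑ m ∈ sqf K, ‖AA N a (m : ℤ)‖ ^ 2 := by
      apply Finset.sum_le_sum_of_subset_of_nonneg
      · intro m hm
        rw [mem_filter, mem_sqf] at hm
        rw [mem_sqf]
        exact ⟨⟨hm.1.1.1, by omega⟩, hm.1.2⟩
      · intro m _ _
        positivity
    refine h7.trans ?_
    rcases Nat.eq_zero_or_pos K with hK0 | hK0
    · have : sqf K = ∅ := by
        rw [hK0]; rfl
      rw [this, Finset.sum_empty]
      positivity
    · have h8 := (hHR N K _ (by positivity) (hb N K (by omega) hK0)).2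
      have h9 := h8 a
      have hKr : (K : ℝ) ≤ H := Nat.floor_le hH0
      have h10 := expo β ε ε' C1 M N K h1 h2 hε e1 e3 e4 hC1 hNr hNM hNMr (by positivity) hKr
      exact h9.trans (mul_le_mul_of_nonneg_right h10 hS0)
  rw [← Finset.sum_filter_add_sum_filter_not (sqf M) (fun m => K < m)]
  have : (128 * C1 + Real.exp Real.pi * (C0 + C2 + C3)) * X ^ ε * M * S =
      Real.exp Real.pi * (C0 + C2 + C3) * X ^ ε * M * S + 128 * C1 * X ^ ε * M * S := by ring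
  rw [this]
  exact add_le_add hlarge hsmall

end

end Pool.Agent.H139R2.HI
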