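import Pool.Agent.H139R2.HI4

set_option autoImplicit false

/-!
The recursion in Heath-Brown's large sieve: dyadic decomposition.
-/

namespace Pool.Agent.H139R2.HI

open Finset Filter Topology MeasureTheory Pool.Agent.H306R2.RZ

noncomputable section

/-- one block, all `M` -/
theorem block2 (hHE : SHE) (hHP : SHP) (hHR : SHR) (hHI0 : SHI0) (hHIk : SHIk) (β : ℝ)
    (h1 : 1 < β) (h2 : β ≤ 2) (h : LSP β) (ε : ℝ) (hε : 0 < ε) :
    ∃ C : ℝ, 0 < C ∧ ∀ M N : ℕ, 1 ≤ M → 1 ≤ N →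
      ∀ (ρ : ℕ) (a : ℕ → ℂ), (∀ n, a n ≠ 0 → N < 2 * n ∧ n ≤ N ∧ n % 4 = ρ) →
      ∑ m ∈ sqf M, ‖AA N a (m : ℤ)‖ ^ 2 ≤
        C * ((M : ℝ) * N) ^ ε * (M + (N : ℝ) ^ (2 - 1 / β)) * ∑ n ∈ osf N, ‖a n‖ ^ 2 := by
  obtain ⟨C1, hC1, he⟩ := hHE ε hε
  obtain ⟨C2, hC2, hb⟩ := block hHP hHR hHI0 hHIk β h1 h2 h (ε / 3) (by positivity)
  have hγ1 : (1 : ℝ) ≤ 2 - 1 / β := by
    have : 1 / β ≤ 1 := by rw [div_le_one (by linarith)]; exact h1.le
    linarith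
  have hγ2 : 2 - 1 / β ≤ 2 := by
    have : 0 ≤ 1 / β := by positivity
    linarith
  set γ : ℝ := 2 - 1 / β with hγ
  refine ⟨2 * C1 + 2 * 2 ^ (ε / 3) * C2, by positivity, ?_⟩
  intro M N hM hN ρ a ha
  set S : ℝ := ∑ n ∈ osf N, ‖a n‖ ^ 2 with hS
  have hS0 : 0 ≤ S := Finset.sum_nonneg fun n _ => by positivity
  have hMr : (1 : ℝ) ≤ M := by exact_mod_cast hM
  have hNr : (1 : ℝ) ≤ N := by exact_mod_cast hN
  set X : ℝ := (M : ℝ) * N with hX
  have hX1 : 1 ≤ X := by rw [hX]; nlinarith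
  have hX0 : 0 < X := by linarith
  have hNγ : 1 ≤ (N : ℝ) ^ γ := Real.one_le_rpow hNr (by linarith)
  have hXε : 1 ≤ X ^ ε := Real.one_le_rpow hX1 hε.le
  -- the bound of HE when N ^ 2 ≤ M + N ^ γ
  have hEb : (N : ℝ) ^ 2 ≤ M + (N : ℝ) ^ γ → ∑ m ∈ sqf M, ‖AA N a (m : ℤ)‖ ^ 2 ≤
      (2 * C1 + 2 * 2 ^ (ε / 3) * C2) * X ^ ε * (M + (N : ℝ) ^ γ) * S := by
    intro hc
    have h3 := he M N hM hN a
    refine h3.trans ?_
    apply mul_le_mul_of_nonneg_right _ hS0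
    have h4 : (N : ℝ) ^ (2 : ℝ) = (N : ℝ) ^ 2 := by
      rw [← Real.rpow_natCast]; norm_num
    rw [h4]
    have h5 : (M : ℝ) + (N : ℝ) ^ 2 ≤ 2 * (M + (N : ℝ) ^ γ) := by linarith
    have h6 : C1 * X ^ ε * (M + (N : ℝ) ^ 2) ≤ C1 * X ^ ε * (2 * (M + (N : ℝ) ^ γ)) :=
      mul_le_mul_of_nonneg_left h5 (by positivity)
    have h7 : 0 ≤ 2 * 2 ^ (ε / 3) * C2 * X ^ ε * (M + (N : ℝ) ^ γ) := by positivity
    calc C1 * X ^ ε * (M + (N : ℝ) ^ 2) ≤ C1 * X ^ ε * (2 * (M + (N : ℝ) ^ γ)) := h6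
      _ ≤ C1 * X ^ ε * (2 * (M + (N : ℝ) ^ γ)) +
          2 * 2 ^ (ε / 3) * C2 * X ^ ε * (M + (N : ℝ) ^ γ) := by linarith
      _ = _ := by ring
  rcases Nat.lt_or_ge N 2 with hN2 | hN2
  · apply hEb
    have : N = 1 := by omega
    rw [this]
    simp
  rcases Nat.lt_or_ge (N ^ 2) M with hMN | hMN
  · apply hEb
    have : (N : ℝ) ^ 2 < M := by exact_mod_cast hMN
    linarith
  -- M' = max M ⌈N ^ γ⌉
  set M' : ℕ := max M ⌈(N : ℝ) ^ γ⌉₊ with hM'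
  have hNγ2 : (N : ℝ) ^ γ ≤ ((N ^ 2 : ℕ) : ℝ) := by
    push_cast
    have h4 : (N : ℝ) ^ (2 : ℝ) = (N : ℝ) ^ 2 := by
      rw [← Real.rpow_natCast]; norm_num
    rw [← h4]
    exact Real.rpow_le_rpow_of_exponent_le hNr hγ2
  have hM'2 : M' ≤ N ^ 2 := by
    rw [hM']
    exact max_le hMN (Nat.ceil_le.2 hNγ2)
  have hM'1 : (N : ℝ) ^ γ ≤ M' := by
    rw [hM']
    push_cast
    exact (Nat.le_ceil _).trans (le_max_right _ _)
  have hMM' : M ≤ M' := le_max_left _ _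
  have hM'3 : (M' : ℝ) ≤ 2 * (M + (N : ℝ) ^ γ) := by
    rw [hM']
    push_cast
    apply max_le
    · linarith
    · have := (Nat.ceil_lt_add_one (by positivity : (0 : ℝ) ≤ (N : ℝ) ^ γ)).le
      linarith
  have h3 := hb M' N hN2 hM'1 hM'2 ρ a ha
  have h4 : ∑ m ∈ sqf M, ‖AA N a (m : ℤ)‖ ^ 2 ≤ ∑ m ∈ sqf M', ‖AA N a (m : ℤ)‖ ^ 2 := by
    apply Finset.sum_le_sum_of_subset_of_nonneg
    · intro m hm
      rw [mem_sqf] at hm ⊢
      exact ⟨⟨hm.1.1, hm.1.2.trans hMM'⟩, hm.2⟩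
    · intro m _ _
      positivity
  have hM'4 : (M' : ℝ) * N ≤ X ^ 3 := by
    have h5 : (M' : ℝ) ≤ (N : ℝ) ^ 2 := by exact_mod_cast hM'2
    calc (M' : ℝ) * N ≤ (N : ℝ) ^ 2 * N := mul_le_mul_of_nonneg_right h5 (by positivity)
      _ = (N : ℝ) ^ 3 := by ring
      _ ≤ X ^ 3 := by
        apply pow_le_pow_left₀ (by positivity)
        rw [hX]
        nlinarith
  have hpow : ((M' : ℝ) * N) ^ (ε / 3) ≤ X ^ ε := by
    calc ((M' : ℝ) * N) ^ (ε / 3) ≤ (X ^ 3) ^ (ε / 3) :=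
          Real.rpow_le_rpow (by positivity) hM'4 (by positivity)
      _ = X ^ ε := by
          rw [← Real.rpow_natCast X 3, ← Real.rpow_mul hX0.le]
          congr 1
          push_cast
          ring
  have h5 : C2 * ((M' : ℝ) * N) ^ (ε / 3) * M' ≤ C2 * X ^ ε * (2 * (M + (N : ℝ) ^ γ)) := by
    apply mul_le_mul (mul_le_mul_of_nonneg_left hpow hC2.le) hM'3 (by positivity) (by positivity)
  have h6 : (1 : ℝ) ≤ 2 ^ (ε / 3) := Real.one_le_rpow (by norm_num) (by positivity)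
  refine h4.trans (h3.trans ?_)
  apply mul_le_mul_of_nonneg_right _ hS0
  refine h5.trans ?_
  have h7 : 0 ≤ C1 * X ^ ε * (M + (N : ℝ) ^ γ) := by positivity
  have h8 : 0 ≤ C2 * X ^ ε * (M + (N : ℝ) ^ γ) := by positivity
  have h9 : C2 * X ^ ε * (M + (N : ℝ) ^ γ) ≤ 2 ^ (ε / 3) * (C2 * X ^ ε * (M + (N : ℝ) ^ γ)) :=
    le_mul_of_one_le_left h8 h6
  calc C2 * X ^ ε * (2 * (M + (N : ℝ) ^ γ)) = 2 * (C2 * X ^ ε * (M + (N : ℝ) ^ γ)) := by ring
    _ ≤ 2 * (2 ^ (ε / 3) * (C2 * X ^ ε * (M + (N : ℝ) ^ γ))) + 2 * (C1 * X ^ ε * (M + (N : ℝ) ^ γ)) := by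
        linarith
    _ = _ := by ring

theorem log_bound (δ : ℝ) (hδ : 0 < δ) : ∃ C : ℝ, 0 < C ∧ ∀ N : ℕ, 1 ≤ N →
    ((4 * (Nat.log 2 N + 1) : ℕ) : ℝ) ≤ C * (N : ℝ) ^ δ := by
  refine ⟨4 * (1 / (δ * Real.log 2) + 1), ?_, ?_⟩
  · have := Real.log_pos (by norm_num : (1 : ℝ) < 2)
    positivity
  intro N hN
  have hNr : (1 : ℝ) ≤ N := by exact_mod_cast hN
  have hl2 : 0 < Real.log 2 := Real.log_pos (by norm_num)
  have h1 : (Nat.log 2 N : ℝ) * Real.log 2 ≤ Real.log N := by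
    rw [← Real.log_pow]
    apply Real.log_le_log (by positivity)
    exact_mod_cast Nat.pow_log_le_self 2 (by omega)
  have h2 : Real.log N ≤ (N : ℝ) ^ δ / δ := Real.log_le_rpow_div (by positivity) hδ
  have h3 : (Nat.log 2 N : ℝ) ≤ 1 / (δ * Real.log 2) * (N : ℝ) ^ δ := by
    have h4 : (Nat.log 2 N : ℝ) * Real.log 2 ≤ (N : ℝ) ^ δ / δ := h1.trans h2
    rw [← le_div_iff₀ hl2] at h4
    refine h4.trans (le_of_eq ?_)
    field_simp
  have h5 : 1 ≤ (N : ℝ) ^ δ := Real.one_le_rpow hNr hδ.le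
  push_cast
  nlinarith

theorem HI_of (hHE : SHE) (hHP : SHP) (hHR : SHR) (hHI0 : SHI0) (hHIk : SHIk) (β : ℝ)
    (h1 : 1 < β) (h2 : β ≤ 2) (h : LSP β) : LSP (2 - 1 / β) := by
  classical
  intro ε hε
  obtain ⟨C1, hC1, hb⟩ := block2 hHE hHP hHR hHI0 hHIk β h1 h2 h (ε / 2) (by positivity)
  obtain ⟨C2, hC2, hl⟩ := log_bound (ε / 4) (by positivity)
  have hγ1 : (1 : ℝ) ≤ 2 - 1 / β := by
    have : 1 / β ≤ 1 := by rw [div_le_one (by linarith)]; exact h1.le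
    linarith
  set γ : ℝ := 2 - 1 / β with hγ
  refine ⟨C2 ^ 2 * C1, by positivity, ?_⟩
  intro M N hM hN a
  have hMr : (1 : ℝ) ≤ M := by exact_mod_cast hM
  have hNr : (1 : ℝ) ≤ N := by exact_mod_cast hN
  set X : ℝ := (M : ℝ) * N with hX
  have hX1 : 1 ≤ X := by rw [hX]; nlinarith
  have hX0 : 0 < X := by linarith
  set S : ℝ := ∑ n ∈ osf N, ‖a n‖ ^ 2 with hS
  have hS0 : 0 ≤ S := Finset.sum_nonneg fun n _ => by positivity
  set P : Finset (ℕ × ℕ) := (range (Nat.log 2 N + 1)) ×ˢ (range 4) with hP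
  have hPc : P.card = 4 * (Nat.log 2 N + 1) := by
    rw [hP, Finset.card_product, card_range, card_range, mul_comm]
  set ap : ℕ × ℕ → ℕ → ℂ := fun p n =>
    if N / 2 ^ p.1 < 2 * n ∧ n ≤ N / 2 ^ p.1 ∧ n % 4 = p.2 then a n else 0 with hap
  -- decomposition
  have hdec : ∀ n ∈ osf N, a n = ∑ p ∈ P, ap p n := by
    intro n hn
    rw [mem_osf] at hn
    have hn0 : 0 < n := by omega
    have hNn : N / n ≠ 0 := (Nat.div_pos hn.1.2 hn0).ne'
    rw [Finset.sum_eq_single (Nat.log 2 (N / n), n % 4)]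
    · simp only [hap]
      rw [if_pos]
      refine ⟨?_, ?_, trivial⟩
      · have h3 : N / n < 2 ^ (Nat.log 2 (N / n) + 1) := Nat.lt_pow_succ_log_self (by norm_num) _
        rw [Nat.div_lt_iff_lt_mul hn0] at h3
        rw [Nat.div_lt_iff_lt_mul (by positivity)]
        calc N < 2 ^ (Nat.log 2 (N / n) + 1) * n := h3
          _ = 2 * n * 2 ^ Nat.log 2 (N / n) := by ring
      · have h3 : 2 ^ (Nat.log 2 (N / n)) ≤ N / n := Nat.pow_log_le_self 2 hNn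
        rw [Nat.le_div_iff_mul_le hn0] at h3
        rw [Nat.le_div_iff_mul_le (by positivity), mul_comm]
        exact h3
    · rintro ⟨j, ρ⟩ hp hne
      simp only [hap]
      rw [if_neg]
      rintro ⟨h3, h4, h5⟩
      apply hne
      rw [Nat.div_lt_iff_lt_mul (by positivity)] at h3
      rw [Nat.le_div_iff_mul_le (by positivity)] at h4
      have h6 : Nat.log 2 (N / n) = j := by
        apply (Nat.log_eq_iff (Or.inr ⟨by norm_num, hNn⟩)).2
        constructor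
        · rw [Nat.le_div_iff_mul_le hn0, mul_comm]; exact h4
        · rw [Nat.div_lt_iff_lt_mul hn0]
          calc N < 2 * n * 2 ^ j := h3
            _ = 2 ^ (j + 1) * n := by ring
      rw [h6, h5]
    · intro hnm
      exfalso
      apply hnm
      rw [hP, Finset.mem_product, mem_range, mem_range]
      refine ⟨?_, Nat.mod_lt _ (by norm_num)⟩
      have : Nat.log 2 (N / n) ≤ Nat.log 2 N := Nat.log_mono_right (Nat.div_le_self _ _)
      show Nat.log 2 (N / n) < Nat.log 2 N + 1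
      omega
  have hAA : ∀ p : ℕ × ℕ, ∀ m : ℤ, AA N (ap p) m = AA (N / 2 ^ p.1) (ap p) m := by
    intro p m
    unfold AA
    symm
    apply Finset.sum_subset
    · intro n hn
      rw [mem_osf] at hn ⊢
      exact ⟨⟨hn.1.1, hn.1.2.trans (Nat.div_le_self _ _)⟩, hn.2⟩
    · intro n hn hn'
      have : ap p n = 0 := by
        simp only [hap]
        rw [if_neg]
        rintro ⟨-, h4, -⟩
        apply hn'
        rw [mem_osf] at hn ⊢
        exact ⟨⟨hn.1.1, h4⟩, hn.2⟩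
      rw [this, zero_mul]
  have hsum : ∀ m : ℤ, AA N a m = ∑ p ∈ P, AA N (ap p) m := by
    intro m
    unfold AA
    rw [Finset.sum_comm]
    apply Finset.sum_congr rfl
    intro n hn
    rw [← Finset.sum_mul, ← hdec n hn]
  set B : ℝ := C1 * X ^ (ε / 2) * (M + (N : ℝ) ^ γ) with hB
  have hB0 : 0 ≤ B := by positivity
  have hpiece : ∀ p ∈ P, ∑ m ∈ sqf M, ‖AA N (ap p) (m : ℤ)‖ ^ 2 ≤ B * S := by
    intro p hp
    rw [hP, Finset.mem_product, mem_range, mem_range] at hp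
    have hN1 : 1 ≤ N / 2 ^ p.1 := by
      rw [Nat.le_div_iff_mul_le (by positivity), one_mul]
      calc 2 ^ p.1 ≤ 2 ^ Nat.log 2 N := Nat.pow_le_pow_right (by norm_num) (by omega)
        _ ≤ N := Nat.pow_log_le_self 2 (by omega)
    have h3 := hb M (N / 2 ^ p.1) hM hN1 p.2 (ap p) (by
      intro n hn
      simp only [hap] at hn
      split_ifs at hn with h4
      · exact h4
      · exact absurd rfl hn)
    have h4 : ∀ m : ℕ, ‖AA N (ap p) (m : ℤ)‖ ^ 2 = ‖AA (N / 2 ^ p.1) (ap p) (m : ℤ)‖ ^ 2 :=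
      fun m => by rw [hAA p m]
    rw [Finset.sum_congr rfl (fun m _ => h4 m)]
    refine h3.trans ?_
    have hle : ((N / 2 ^ p.1 : ℕ) : ℝ) ≤ N := by exact_mod_cast Nat.div_le_self _ _
    apply mul_le_mul
    · rw [hB]
      apply mul_le_mul
      · apply mul_le_mul_of_nonneg_left _ hC1.le
        apply Real.rpow_le_rpow (by positivity) _ (by positivity)
        exact mul_le_mul_of_nonneg_left hle (by positivity)
      · have := Real.rpow_le_rpow (Nat.cast_nonneg _) hle (by linarith : (0 : ℝ) ≤ γ)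
        linarith
      · positivity
      · positivity
    · rw [hS]
      refine le_trans (Finset.sum_le_sum_of_subset_of_nonneg (t := osf N) ?_ ?_) ?_
      · intro n hn
        rw [mem_osf] at hn ⊢
        exact ⟨⟨hn.1.1, hn.1.2.trans (Nat.div_le_self _ _)⟩, hn.2⟩
      · intro n _ _
        positivity
      · apply Finset.sum_le_sum
        intro n _
        simp only [hap]
        split_ifs
        · exact le_rfl
        · rw [norm_zero, zero_pow two_ne_zero]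
          positivity
    · positivity
    · exact hB0
  have hCS : ∀ m : ℕ, ‖AA N a (m : ℤ)‖ ^ 2 ≤ P.card * ∑ p ∈ P, ‖AA N (ap p) (m : ℤ)‖ ^ 2 := by
    intro m
    rw [hsum]
    calc ‖∑ p ∈ P, AA N (ap p) (m : ℤ)‖ ^ 2 ≤ (∑ p ∈ P, ‖AA N (ap p) (m : ℤ)‖) ^ 2 :=
          pow_le_pow_left₀ (norm_nonneg _) (norm_sum_le _ _) 2
      _ ≤ P.card * ∑ p ∈ P, ‖AA N (ap p) (m : ℤ)‖ ^ 2 := sq_sum_le_card_mul_sum_sq
  have hmain : ∑ m ∈ sqf M, ‖AA N a (m : ℤ)‖ ^ 2 ≤ (P.card : ℝ) ^ 2 * (B * S) := by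
    calc ∑ m ∈ sqf M, ‖AA N a (m : ℤ)‖ ^ 2
        ≤ ∑ m ∈ sqf M, P.card * ∑ p ∈ P, ‖AA N (ap p) (m : ℤ)‖ ^ 2 :=
          Finset.sum_le_sum fun m _ => hCS m
      _ = P.card * ∑ p ∈ P, ∑ m ∈ sqf M, ‖AA N (ap p) (m : ℤ)‖ ^ 2 := by
          rw [← Finset.mul_sum, Finset.sum_comm]
      _ ≤ P.card * ∑ p ∈ P, B * S := by
          apply mul_le_mul_of_nonneg_left (Finset.sum_le_sum hpiece) (by positivity)
      _ = (P.card : ℝ) ^ 2 * (B * S) := by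
          rw [Finset.sum_const, nsmul_eq_mul]
          ring
  have hPr : (P.card : ℝ) ^ 2 ≤ C2 ^ 2 * X ^ (ε / 2) := by
    have h3 : (P.card : ℝ) ≤ C2 * X ^ (ε / 4) := by
      rw [hPc]
      refine (hl N hN).trans ?_
      apply mul_le_mul_of_nonneg_left _ hC2.le
      apply Real.rpow_le_rpow (by positivity) _ (by positivity)
      rw [hX]
      nlinarith
    calc (P.card : ℝ) ^ 2 ≤ (C2 * X ^ (ε / 4)) ^ 2 := pow_le_pow_left₀ (by positivity) h3 2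
      _ = C2 ^ 2 * (X ^ (ε / 4) * X ^ (ε / 4)) := by ring
      _ = C2 ^ 2 * X ^ (ε / 2) := by
          rw [← Real.rpow_add hX0]
          congr 2
          ring
  have hXX : X ^ ε = X ^ (ε / 2) * X ^ (ε / 2) := by
    rw [← Real.rpow_add hX0]
    congr 1
    ring
  have hfinal : (P.card : ℝ) ^ 2 * (B * S) ≤ C2 ^ 2 * C1 * X ^ ε * (M + (N : ℝ) ^ γ) * S := by
    calc (P.card : ℝ) ^ 2 * (B * S) ≤ C2 ^ 2 * X ^ (ε / 2) * (B * S) :=
          mul_le_mul_of_nonneg_right hPr (by positivity)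
      _ = C2 ^ 2 * C1 * (X ^ (ε / 2) * X ^ (ε / 2)) * (M + (N : ℝ) ^ γ) * S := by
          rw [hB]; ring
      _ = _ := by rw [← hXX]
  exact hmain.trans hfinal

end

end Pool.Agent.H139R2.HI
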